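import Pool.Agent.W172.WL.All
import Pool.Agent.W803.WL.Lin
import Pool.Agent.W918.WL.Borel

set_option autoImplicit false

/-!
# Almost every level set of a prevalent Weierstrass function has dimension `1 - α` (MP_22f354_an, Q1)

`LS` is the space `Lip(S¹)` (Lipschitz functions on the circle, written as `1`-periodic functions `g.fn`
on `ℝ`) with the norm `sup |g| + sup_{x ≠ y} |g x - g y| / |x - y|`, and
`W b α g x = ∑ b^(-αk) g(b^k x)`.
-/

open MeasureTheory Set

namespace Pool.Agent.Results.MP_22f354_an.PrevalentLevelSets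

open Pool.Agent.W172.WL Pool.Agent.W337.WL

/-- For every integer `b ≥ 2` and `0 < α < 1`, for prevalent `g ∈ Lip(S¹)` the level sets of the
Weierstrass function `W_g` have Hausdorff dimension `1 - α` for almost every `y ∈ W_g(S¹)`. -/
theorem result : ∀ (b : ℕ) (α : ℝ), 2 ≤ b → 0 < α → α < 1 →
    IsShy {g : LS | ¬ ∀ᵐ y : ℝ, y ∈ range (W b α g.fn) →
      dimH {x : ℝ | x ∈ Ico (0:ℝ) 1 ∧ W b α g.fn x = y} = ENNReal.ofReal (1 - α)} :=
  s_main Pool.Agent.W803.WL.lin Pool.Agent.W918.WL.borel2

end Pool.Agent.Results.MP_22f354_an.PrevalentLevelSets
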